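import Pool.Agent.Y215.CT.Stm
import Pool.Agent.TH847.LS.Quad

/-!
# CT-FLD: the imaginary quadratic fields with discriminant `-d`
-/

set_option autoImplicit false

namespace Pool.Agent.Y587.CT

open NumberField Polynomial

/-- roots of monic quadratic polynomials are integral -/
theorem mkInt {K : Type} [Field K] [NumberField K] (x : K) (n M : ℤ)
    (h : x ^ 2 - n * x + M = 0) :
    ∃ α : 𝓞 K, algebraMap (𝓞 K) K α = x ∧ α ^ 2 - (n : 𝓞 K) * α + (M : 𝓞 K) = 0 := by
  have hx : IsIntegral ℤ x := by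
    refine ⟨X ^ 2 - C n * X + C M, by monicity!, ?_⟩
    rw [eval₂_add, eval₂_sub, eval₂_mul, eval₂_X_pow, eval₂_C, eval₂_C, eval₂_X, eq_intCast,
      eq_intCast]
    exact h
  obtain ⟨α, hα⟩ : ∃ α : 𝓞 K, algebraMap (𝓞 K) K α = x := ⟨⟨x, hx⟩, rfl⟩
  refine ⟨α, hα, ?_⟩
  apply RingOfIntegers.coe_injective
  rw [map_add, map_sub, map_pow, map_mul, map_intCast, map_intCast, map_zero, hα]
  exact h

theorem t_FLD : Pool.Agent.Y215.CT.S_FLD := by
  intro d hd hd4
  have hd0 : 0 < d := by omega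
  obtain ⟨r, hr⟩ : ∃ r : ℝ, r = Real.sqrt d := ⟨_, rfl⟩
  have hr0 : 0 < r := by rw [hr]; exact Real.sqrt_pos.2 (by exact_mod_cast hd0)
  have hr2 : r ^ 2 = d := by rw [hr]; exact Real.sq_sqrt (by positivity)
  obtain ⟨s, hs⟩ : ∃ s : ℂ, s = (r : ℂ) * Complex.I := ⟨_, rfl⟩
  have hs2 : s ^ 2 = -(d : ℂ) := by
    have e : ((r : ℂ)) ^ 2 = (d : ℂ) := by exact_mod_cast hr2
    rw [hs, mul_pow, Complex.I_sq, e]
    ring
  have hsim : s.im = r := by rw [hs]; simp
  have hpm : (X ^ 2 + C (d : ℚ) : ℚ[X]).Monic := by monicity!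
  have hpd : (X ^ 2 + C (d : ℚ) : ℚ[X]).natDegree = 2 := by compute_degree!
  have hpi : Irreducible (X ^ 2 + C (d : ℚ) : ℚ[X]) := by
    rw [hpm.irreducible_iff_roots_eq_zero_of_degree_le_three (by omega) (by omega)]
    rw [Multiset.eq_zero_iff_forall_notMem]
    intro z hz
    have h1 := (mem_roots hpm.ne_zero).1 hz
    rw [IsRoot.def, eval_add, eval_pow, eval_X, eval_C] at h1
    have h2 : (0 : ℚ) < d := by exact_mod_cast hd0
    nlinarith [sq_nonneg z]
  have hps : aeval s (X ^ 2 + C (d : ℚ) : ℚ[X]) = 0 := by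
    simp [hs2]
  have hmin : minpoly ℚ s = X ^ 2 + C (d : ℚ) := (minpoly.eq_of_irreducible_of_monic hpi hps hpm).symm
  have hint : IsIntegral ℚ s := ⟨_, hpm, hps⟩
  have hfin : Module.finrank ℚ (IntermediateField.adjoin ℚ {s}) = 2 := by
    rw [IntermediateField.adjoin.finrank hint, hmin, hpd]
  have hfd : FiniteDimensional ℚ (IntermediateField.adjoin ℚ {s}) :=
    IntermediateField.adjoin.finiteDimensional hint
  have hNF : NumberField (IntermediateField.adjoin ℚ {s}) := { to_charZero := inferInstance, to_finiteDimensional := hfd }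
  obtain ⟨K, hK⟩ : ∃ K : IntermediateField ℚ ℂ, K = IntermediateField.adjoin ℚ {s} := ⟨_, rfl⟩
  rw [← hK] at hfin hNF
  have hsK : s ∈ K := by
    rw [hK]
    exact IntermediateField.mem_adjoin_simple_self ℚ s
  obtain ⟨z, hz⟩ : ∃ z : K, (z : ℂ) = s := ⟨⟨s, hsK⟩, rfl⟩
  have hz2 : z ^ 2 = -(d : K) := by
    apply Subtype.coe_injective
    push_cast
    rw [hz, hs2]
  have hzα : ∀ n q M : ℕ, n ^ 2 + d * q ^ 2 = 4 * M →
      ∃ α : 𝓞 K, algebraMap (𝓞 K) K α = (n + q * z) / 2 ∧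
        α ^ 2 - ((n : ℤ) : 𝓞 K) * α + ((M : ℤ) : 𝓞 K) = 0 := by
    intro n q M h
    apply mkInt
    have h' : (n : K) ^ 2 + d * q ^ 2 = 4 * M := by exact_mod_cast h
    push_cast
    linear_combination (1 / 4 * (q : K) ^ 2) * hz2 - 1 / 4 * h'
  refine ⟨K, hNF, hfin, ?_, ⟨z, by rw [hz, hsim]; exact hr0.ne'⟩, ?_⟩
  · obtain ⟨α, hα, -⟩ := hzα 1 1 ((1 + d) / 4) (by omega)
    obtain ⟨f, hf⟩ : ∃ f : 𝓞 K →+* ℂ, f = (algebraMap K ℂ).comp (algebraMap (𝓞 K) K) := ⟨_, rfl⟩
    have hα2 : algebraMap (𝓞 K) K α * 2 = 1 + z := by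
      rw [hα]
      push_cast
      ring
    have hfα : f α * 2 = 1 + s := by
      have h1 := congrArg (algebraMap K ℂ) hα2
      rw [map_mul, map_ofNat, map_add, map_one] at h1
      rw [hf, RingHom.comp_apply, h1, ← hz]
      rfl
    have hne : ∀ m : ℤ, α ≠ (m : 𝓞 K) := by
      intro m hm
      have h1 := congrArg f hm
      rw [map_intCast] at h1
      rw [h1] at hfα
      have h2 := congrArg Complex.im hfα
      have h3 : ((m : ℂ) * 2).im = 0 := by
        rw [show (m : ℂ) * 2 = ((m * 2 : ℤ) : ℂ) by push_cast; ring]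
        exact Complex.intCast_im _
      rw [h3, Complex.add_im, Complex.one_im, hsim] at h2
      linarith
    obtain ⟨t, m, hm, h3, h4⟩ := Pool.Agent.TH847.LS.quad_eq hfin α hne
    obtain ⟨T, hT⟩ : ∃ T : ℤ, T = t ^ 2 - 4 * Algebra.norm ℤ α := ⟨_, rfl⟩
    rw [← hT] at h3 h4
    have h5 := congrArg f h3
    rw [map_pow, map_sub, map_mul, map_intCast, map_intCast, map_ofNat, mul_comm, hfα] at h5
    have e : (1 + s - (t : ℂ)) ^ 2 = (((1 - (t : ℝ)) ^ 2 - d : ℝ) : ℂ) +
        ((2 * (1 - (t : ℝ)) : ℝ) : ℂ) * s := by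
      push_cast
      linear_combination hs2
    rw [e] at h5
    have him := congrArg Complex.im h5
    rw [Complex.add_im, Complex.ofReal_im, Complex.im_ofReal_mul, hsim, Complex.intCast_im] at him
    have ht : (t : ℝ) = 1 := by
      have h6 : (1 - (t : ℝ)) * r = 0 := by linarith
      rcases mul_eq_zero.1 h6 with h7 | h7
      · linarith
      · exact absurd h7 hr0.ne'
    have hre := congrArg Complex.re h5
    have hsre : s.re = 0 := by rw [hs]; simp
    rw [Complex.add_re, Complex.ofReal_re, Complex.re_ofReal_mul, hsre, Complex.intCast_re, ht] at hre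
    have hTd : T = -(d : ℤ) := by
      have : (T : ℝ) = -(d : ℝ) := by linarith
      exact_mod_cast this
    rw [hTd] at h4
    have hdvd : m.natAbs * m.natAbs ∣ d := by
      have h6 : m * m ∣ (d : ℤ) := ⟨-discr K, by linear_combination -h4⟩
      have h7 := Int.natAbs_dvd_natAbs.2 h6
      rw [Int.natAbs_mul, Int.natAbs_natCast] at h7
      exact h7
    have hm1 : m.natAbs = 1 := Nat.isUnit_iff.1 (hd _ hdvd)
    have hm2 : m ^ 2 = 1 := by
      rw [← Int.natAbs_sq, hm1]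
      rfl
    rw [hm2, one_mul] at h4
    exact h4.symm
  · intro n q M h
    obtain ⟨α, -, hα⟩ := hzα n q M h
    refine ⟨α, ?_⟩
    push_cast at hα
    exact hα

end Pool.Agent.Y587.CT
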